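import Pool.Agent.Helper50.CT.Goals

/-!
# Project CT, packet COUNT (lattice points)
-/

set_option autoImplicit false

open Set Filter Topology

namespace Pool.Agent.Helper62.CT

/-- a set of integer vectors which generates `2ℤⁿ` contains `n` vectors with nonzero determinant -/
theorem exists_det {n : ℕ} (B : Set (Fin n → ℤ))
    (h : ∀ k : Fin n → ℤ, k + k ∈ AddSubgroup.closure B) :
    ∃ w : Fin n → (Fin n → ℤ), (∀ i, w i ∈ B) ∧ (Matrix.of w).det ≠ 0 := by
  classical
  set c : (Fin n → ℤ) →+ (Fin n → ℝ) :=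
    { toFun := fun k i => (k i : ℝ)
      map_zero' := by ext; simp
      map_add' := by intro a b; ext; simp } with hc
  set s : Set (Fin n → ℝ) := c '' B with hs
  have hspan : Submodule.span ℝ s = ⊤ := by
    rw [eq_top_iff, ← (Pi.basisFun ℝ (Fin n)).span_eq, Submodule.span_le]
    rintro _ ⟨i, rfl⟩
    have h1 := h (Pi.single i 1)
    have h2 : c (Pi.single i 1 + Pi.single i 1) ∈ Submodule.span ℝ s := by
      have h3 : AddSubgroup.closure B ≤ (Submodule.span ℝ s).toAddSubgroup.comap c := by
        rw [AddSubgroup.closure_le]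
        intro b hb
        exact Submodule.subset_span ⟨b, hb, rfl⟩
      exact h3 h1
    have h4 : (Pi.basisFun ℝ (Fin n)) i = (1 / 2 : ℝ) • c (Pi.single i 1 + Pi.single i 1) := by
      ext j
      simp only [hc, Pi.basisFun_apply, AddMonoidHom.coe_mk, ZeroHom.coe_mk, Pi.smul_apply,
        Pi.add_apply, smul_eq_mul]
      by_cases hij : j = i
      · subst hij
        simp
      · simp [hij]
    rw [h4]
    exact Submodule.smul_mem _ _ h2
  obtain ⟨b, hb1, hb2, hb3⟩ := exists_linearIndependent ℝ s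
  rw [hspan] at hb2
  have hbas : Module.Basis b ℝ (Fin n → ℝ) :=
    Module.Basis.mk hb3 (by rw [Subtype.range_coe]; exact hb2.ge)
  have hfin : Finite b := Module.Finite.finite_basis hbas
  have : Fintype b := Fintype.ofFinite b
  have hcard : Fintype.card b = n := by
    have := Module.finrank_eq_card_basis hbas
    rw [Module.finrank_fin_fun] at this
    exact this.symm
  let e : Fin n ≃ b := (finCongr hcard.symm).trans (Fintype.equivFin b).symm
  have hex : ∀ i : Fin n, ∃ k ∈ B, c k = (e i : Fin n → ℝ) := fun i => hb1 (e i).2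
  choose w hw1 hw2 using hex
  refine ⟨w, hw1, ?_⟩
  have hli : LinearIndependent ℝ (fun i : Fin n => c (w i)) := by
    have h1 : (fun i : Fin n => c (w i)) = ((↑) : b → (Fin n → ℝ)) ∘ e := by
      funext i
      exact hw2 i
    rw [h1]
    exact hb3.comp _ e.injective
  have h1 : IsUnit (Matrix.of (fun i : Fin n => c (w i))) := by
    rw [← Matrix.linearIndependent_rows_iff_isUnit]
    exact hli
  have h2 : (Matrix.of (fun i : Fin n => c (w i))).det ≠ 0 := by
    have := (Matrix.isUnit_iff_isUnit_det _).1 h1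
    exact this.ne_zero
  intro h3
  apply h2
  have h4 : Matrix.of (fun i : Fin n => c (w i)) = (Matrix.of w).map (Int.castRingHom ℝ) := by
    ext i j
    simp [hc]
  rw [h4, ← RingHom.mapMatrix_apply, ← RingHom.map_det, h3]
  simp

theorem goalCOUNT : Pool.Agent.Helper50.CT.StmtCOUNT := by
  classical
  intro n ν r m h0 hadd hneg hfin hr hcl hm
  set B : Set (Fin n → ℤ) := {k | ν k ≤ r} with hB
  have hBf : B.Finite := hfin r
  obtain ⟨w0, hw0, hdet0⟩ := exists_det B hcl
  -- a maximal determinant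
  have hWf : {w : Fin n → (Fin n → ℤ) | ∀ i, w i ∈ B}.Finite := by
    have := Set.Finite.pi (fun _ : Fin n => hBf)
    convert this using 1
    ext w
    simp
  obtain ⟨v, hv, hmax⟩ := Set.exists_max_image _ (fun w => |(Matrix.of w).det|) hWf ⟨w0, hw0⟩
  have hv' : ∀ i, v i ∈ B := hv
  have hdet : (Matrix.of v).det ≠ 0 := by
    intro h
    have h1 := hmax w0 hw0
    simp only [h, abs_zero] at h1
    exact hdet0 (abs_eq_zero.1 (le_antisymm h1 (abs_nonneg _)))
  set A : Matrix (Fin n) (Fin n) ℤ := (Matrix.of v).transpose with hA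
  have hAdet : A.det = (Matrix.of v).det := Matrix.det_transpose _
  have hcr : ∀ b ∈ B, ∀ i, |Matrix.cramer A b i| ≤ |A.det| := by
    intro b hb i
    rw [Matrix.cramer_apply, hAdet, hA]
    have h1 : ((Matrix.of v).transpose.updateCol i b) =
        (Matrix.of (Function.update v i b)).transpose := by
      ext j k
      simp only [Matrix.updateCol_apply, Matrix.transpose_apply, Matrix.of_apply,
        Function.update_apply]
      split_ifs <;> rfl
    rw [h1, Matrix.det_transpose]
    apply hmax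
    intro j
    by_cases hj : j = i
    · subst hj
      simpa using hb
    · simpa [Function.update_of_ne hj] using hv' j
  have hmul : ∀ x : Fin n → ℤ, A.mulVec x = ∑ i, x i • v i := by
    intro x
    ext j
    simp only [Matrix.mulVec, dotProduct, hA, Matrix.transpose_apply, Matrix.of_apply,
      Finset.sum_apply, Pi.smul_apply, smul_eq_mul]
    exact Finset.sum_congr rfl fun i _ => mul_comm _ _
  have hAinj : ∀ x y : Fin n → ℤ, A.mulVec x = A.mulVec y → x = y := by
    intro x y hxy
    have h1 : A.mulVec (x - y) = 0 := by rw [Matrix.mulVec_sub, hxy, sub_self]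
    have h2 := Matrix.eq_zero_of_mulVec_eq_zero (M := A) (by rw [hAdet]; exact hdet) h1
    exact sub_eq_zero.1 h2
  -- the injection
  set F : (Fin n → ℤ) × (Fin n → Fin m) → (Fin n → ℤ) :=
    fun p => p.1 + ∑ i, (3 * ((p.2 i : ℕ) : ℤ)) • v i with hF
  have hFinj : Set.InjOn F ((hBf.toFinset ×ˢ (Finset.univ : Finset (Fin n → Fin m)) :
      Finset ((Fin n → ℤ) × (Fin n → Fin m))) : Set _) := by
    rintro ⟨b, k⟩ hbk ⟨b', k'⟩ hbk' heq
    simp only [Finset.coe_product, Set.mem_prod, Finset.mem_coe, Set.Finite.mem_toFinset,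
      Finset.coe_univ, Set.mem_univ, and_true] at hbk hbk'
    simp only [hF] at heq
    have h1 : A.mulVec (Matrix.cramer A b - Matrix.cramer A b') =
        A.mulVec (fun i => A.det * (3 * ((k' i : ℕ) : ℤ) - 3 * ((k i : ℕ) : ℤ))) := by
      rw [Matrix.mulVec_sub, Matrix.mulVec_cramer, Matrix.mulVec_cramer, hmul]
      have h2 : b - b' = ∑ i, (3 * ((k' i : ℕ) : ℤ) - 3 * ((k i : ℕ) : ℤ)) • v i := by
        simp only [sub_smul, Finset.sum_sub_distrib]
        have h3 : b = b' + ∑ i, (3 * ((k' i : ℕ) : ℤ)) • v i - ∑ i, (3 * ((k i : ℕ) : ℤ)) • v i := by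
          rw [← heq]
          abel
        rw [h3]
        abel
      rw [← smul_sub, h2, Finset.smul_sum]
      refine Finset.sum_congr rfl fun i _ => ?_
      rw [smul_smul]
    have h2 := hAinj _ _ h1
    have hk : ∀ i, k i = k' i := by
      intro i
      have h3 := congrFun h2 i
      simp only [Pi.sub_apply] at h3
      have h4 := hcr b hbk i
      have h5 := hcr b' hbk' i
      have hd : 0 < |A.det| := abs_pos.2 (by rw [hAdet]; exact hdet)
      have h6 : |A.det| * |3 * ((k' i : ℕ) : ℤ) - 3 * ((k i : ℕ) : ℤ)| ≤ |A.det| * 2 := by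
        rw [← abs_mul, ← h3]
        calc |Matrix.cramer A b i - Matrix.cramer A b' i|
            ≤ |Matrix.cramer A b i| + |Matrix.cramer A b' i| := abs_sub _ _
          _ ≤ |A.det| * 2 := by linarith
      have h7 := le_of_mul_le_mul_left h6 hd
      rw [abs_le] at h7
      apply Fin.ext
      omega
    have hkk : k = k' := funext hk
    subst hkk
    have hbb : b = b' := by
      have := heq
      simpa using this
    rw [hbb]
  have hνsmul : ∀ (j : ℕ) (x : Fin n → ℤ), x ∈ B → ν ((j : ℤ) • x) ≤ j * r := by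
    intro j x hx
    induction j with
    | zero => simp [h0]
    | succ j ih =>
      have h1 : (((j + 1 : ℕ) : ℤ) • x) = (j : ℤ) • x + x := by
        push_cast
        rw [add_smul, one_smul]
      rw [h1]
      have h2 := hadd ((j : ℤ) • x) x
      have h3 : ν x ≤ r := hx
      push_cast
      linarith
  have hmaps : ∀ p ∈ (hBf.toFinset ×ˢ (Finset.univ : Finset (Fin n → Fin m)) :
      Finset ((Fin n → ℤ) × (Fin n → Fin m))),
      F p ∈ (hfin ((1 + 3 * n * ((m : ℝ) - 1)) * r)).toFinset := by
    rintro ⟨b, k⟩ hbk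
    simp only [Finset.mem_product, Set.Finite.mem_toFinset, Finset.mem_univ, and_true] at hbk
    rw [Set.Finite.mem_toFinset]
    show ν (F (b, k)) ≤ _
    simp only [hF]
    have h1 := hadd b (∑ i, (3 * ((k i : ℕ) : ℤ)) • v i)
    have h2 : ν (∑ i, (3 * ((k i : ℕ) : ℤ)) • v i) ≤ ∑ i, ν ((3 * ((k i : ℕ) : ℤ)) • v i) :=
      Finset.le_sum_of_subadditive ν h0.le hadd Finset.univ _
    have h3 : ∑ i, ν ((3 * ((k i : ℕ) : ℤ)) • v i) ≤ ∑ i : Fin n, 3 * ((m : ℝ) - 1) * r := by
      refine Finset.sum_le_sum fun i _ => ?_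
      have h4 := hνsmul (3 * (k i : ℕ)) (v i) (hv' i)
      have h5 : (((3 * (k i : ℕ) : ℕ) : ℤ)) = 3 * ((k i : ℕ) : ℤ) := by push_cast; ring
      rw [h5] at h4
      refine h4.trans ?_
      have h6 : ((k i : ℕ) : ℝ) ≤ (m : ℝ) - 1 := by
        have h7 : (k i : ℕ) + 1 ≤ m := (k i).2
        have h8 : (((k i : ℕ) + 1 : ℕ) : ℝ) ≤ (m : ℝ) := by exact_mod_cast h7
        push_cast at h8
        linarith
      push_cast
      have h9 : 3 * ((k i : ℕ) : ℝ) ≤ 3 * ((m : ℝ) - 1) := by linarith
      exact mul_le_mul_of_nonneg_right h9 hr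
    rw [Finset.sum_const, Finset.card_univ, Fintype.card_fin, nsmul_eq_mul] at h3
    have h4 : ν b ≤ r := hbk
    calc ν (b + ∑ i, (3 * ((k i : ℕ) : ℤ)) • v i) ≤ r + n * (3 * ((m : ℝ) - 1) * r) := by linarith
      _ = (1 + 3 * n * ((m : ℝ) - 1)) * r := by ring
  have hfinal := Finset.card_le_card_of_injOn F hmaps hFinj
  rw [Finset.card_product, Finset.card_univ, Fintype.card_fun, Fintype.card_fin,
    Fintype.card_fin] at hfinal
  rw [Set.ncard_eq_toFinset_card _ hBf, Set.ncard_eq_toFinset_card _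
    (hfin ((1 + 3 * n * ((m : ℝ) - 1)) * r)), mul_comm]
  exact hfinal

end Pool.Agent.Helper62.CT
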