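import Mathlib
import Pool.Agent.Helper99.CT.Defs

/-!
Project CT (cactus groups, MP_2b0b8a_al), packet CT-DEL: the deletion lemma and the parity lemma.
-/

set_option autoImplicit false

namespace Pool.Agent.Helper62.CT

open Pool.Agent.Helper99.CT

variable {n : ℕ}

theorem Comp_symm {S T : Finset (Fin n)} (h : Comp S T) : Comp T S := by
  rcases h with h | h | h
  · exact Or.inr (Or.inl h)
  · exact Or.inl h
  · exact Or.inr (Or.inr h.symm)

theorem mem_pts (g : Gen n) (i : Fin n) : i ∈ pts g ↔ g.p ≤ i.1 + 1 ∧ i.1 + 1 ≤ g.q := by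
  simp [pts]

theorem mem_mv (π : Equiv.Perm (Fin n)) (S : Finset (Fin n)) (i : Fin n) :
    i ∈ mv π S ↔ π.symm i ∈ S := by
  unfold mv
  exact Finset.mem_map_equiv

theorem mem_mv_flip (g : Gen n) (S : Finset (Fin n)) (i : Fin n) :
    i ∈ mv (flip g) S ↔ flipFun g i ∈ S := mem_mv _ _ _

theorem mv_one (S : Finset (Fin n)) : mv 1 S = S := by
  ext i
  rw [mem_mv]
  rfl

theorem mv_mul (π σ : Equiv.Perm (Fin n)) (S : Finset (Fin n)) : mv (π * σ) S = mv π (mv σ S) := by
  ext i
  rw [mem_mv, mem_mv, mem_mv]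
  rfl

/-- The permutation of the sets given by a permutation of the points. -/
def mvPerm (π : Equiv.Perm (Fin n)) : Equiv.Perm (Finset (Fin n)) where
  toFun := mv π
  invFun := mv π⁻¹
  left_inv := fun S => by rw [← mv_mul, inv_mul_cancel, mv_one]
  right_inv := fun S => by rw [← mv_mul, mul_inv_cancel, mv_one]

theorem comp_mv (π : Equiv.Perm (Fin n)) (S T : Finset (Fin n)) :
    Comp (mv π S) (mv π T) ↔ Comp S T := by
  unfold Comp mv
  rw [Finset.map_subset_map, Finset.map_subset_map, Finset.disjoint_map]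

/-- The permutations of the points act on the sets and preserve the compatibility. -/
def mvAut : Equiv.Perm (Fin n) →* AutC (Comp (n := n)) where
  toFun π := ⟨mvPerm π, fun S T => comp_mv π S T⟩
  map_one' := by
    apply Subtype.ext
    apply Equiv.ext
    intro S
    exact mv_one S
  map_mul' π σ := by
    apply Subtype.ext
    apply Equiv.ext
    intro S
    exact mv_mul π σ S

theorem mvAut_apply (π : Equiv.Perm (Fin n)) (S : Finset (Fin n)) : (mvAut π).1 S = mv π S := rfl

theorem mv_self (g : Gen n) : mv (flip g) (pts g) = pts g := by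
  have := g.le; have := g.one_le; have := g.lt
  ext i
  rw [mem_mv_flip, mem_pts, mem_pts, flipFun_val]
  split_ifs <;> omega

theorem mv_disj (g h : Gen n) (hd : g.q < h.p ∨ h.q < g.p) : mv (flip g) (pts h) = pts h := by
  have := g.le; have := g.one_le; have := g.lt
  have := h.le; have := h.one_le; have := h.lt
  ext i
  rw [mem_mv_flip, mem_pts, mem_pts, flipFun_val]
  split_ifs <;> omega

theorem mv_nest (g h k : Gen n) (h₁ : g.p ≤ h.p) (h₂ : h.q ≤ g.q)
    (hp : k.p = g.p + g.q - h.q) (hq : k.q = g.p + g.q - h.p) : mv (flip g) (pts h) = pts k := by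
  have := g.le; have := g.one_le; have := g.lt
  have := h.le; have := h.one_le; have := h.lt
  ext i
  rw [mem_mv_flip, mem_pts, mem_pts, flipFun_val]
  split_ifs <;> omega

theorem mv_inner (g h k : Gen n) (h₁ : g.p ≤ h.p) (h₂ : h.q ≤ g.q)
    (hp : k.p = g.p + g.q - h.q) (hq : k.q = g.p + g.q - h.p) : mv (flip k) (pts g) = pts g := by
  have := g.le; have := g.one_le; have := g.lt
  have := h.le; have := h.one_le; have := h.lt
  have := k.le; have := k.one_le; have := k.lt
  ext i
  rw [mem_mv_flip, mem_pts, mem_pts, flipFun_val]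
  split_ifs <;> omega

theorem comp_disj (g h : Gen n) (hd : g.q < h.p ∨ h.q < g.p) : Comp (pts g) (pts h) := by
  refine Or.inr (Or.inr ?_)
  rw [Finset.disjoint_left]
  intro i hi hj
  rw [mem_pts] at hi hj
  omega

theorem comp_nest (g h k : Gen n) (h₁ : g.p ≤ h.p) (h₂ : h.q ≤ g.q)
    (hp : k.p = g.p + g.q - h.q) (hq : k.q = g.p + g.q - h.p) : Comp (pts g) (pts k) := by
  have := g.le; have := g.one_le; have := g.lt
  have := h.le; have := h.one_le; have := h.lt
  refine Or.inr (Or.inl ?_)
  intro i hi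
  rw [mem_pts] at hi ⊢
  omega

theorem rho_s' (g : Gen n) : rho n (s g) = flip g := by
  simp [rho]

theorem flip_sq (g : Gen n) : flip g * flip g = 1 := by
  rw [← rho_s', ← map_mul, s_sq, map_one]

theorem flip_disj (g h : Gen n) (hd : g.q < h.p ∨ h.q < g.p) :
    flip g * flip h = flip h * flip g := by
  rw [← rho_s', ← rho_s', ← map_mul, ← map_mul, s_disj g h hd]

theorem flip_nest (g h k : Gen n) (h₁ : g.p ≤ h.p) (h₂ : h.q ≤ g.q)
    (hp : k.p = g.p + g.q - h.q) (hq : k.q = g.p + g.q - h.p) :
    flip g * flip h = flip k * flip g := by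
  rw [← rho_s', ← rho_s', ← rho_s', ← map_mul, ← map_mul, s_nest g h k h₁ h₂ hp hq]

section Act

variable {Q : Type} (τ : Finset (Fin n) → Equiv.Perm Q)
  (μ : AutC (Comp (n := n)) →* Equiv.Perm Q)
  (t1 : ∀ a, τ a * τ a = 1) (t2 : ∀ a b, Comp a b → τ a * τ b = τ b * τ a)
  (t3 : ∀ (π : AutC (Comp (n := n))) (a : Finset (Fin n)), μ π * τ a = τ (π.1 a) * μ π)

include t3 in
theorem two_step (π σ : Equiv.Perm (Fin n)) (a b c : Finset (Fin n)) (h : mv π b = c) :
    (τ a * μ (mvAut π)) * (τ b * μ (mvAut σ)) = τ a * τ c * μ (mvAut (π * σ)) := by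
  have h1 : μ (mvAut π) * τ b = τ c * μ (mvAut π) := by
    rw [t3, mvAut_apply, h]
  calc (τ a * μ (mvAut π)) * (τ b * μ (mvAut σ))
      = τ a * (μ (mvAut π) * τ b) * μ (mvAut σ) := by simp only [mul_assoc]
    _ = τ a * (τ c * μ (mvAut π)) * μ (mvAut σ) := by rw [h1]
    _ = τ a * τ c * (μ (mvAut π) * μ (mvAut σ)) := by simp only [mul_assoc]
    _ = τ a * τ c * μ (mvAut (π * σ)) := by rw [← map_mul, ← map_mul]

/-- The action of the cactus group. -/
def actC : Cactus n →* Equiv.Perm Q :=
  liftC (fun g => τ (pts g) * μ (mvAut (flip g)))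
    (fun g => by
      rw [two_step τ μ t3 _ _ _ _ _ (mv_self g), t1, one_mul, flip_sq, map_one, map_one])
    (fun g h hd => by
      rw [two_step τ μ t3 _ _ _ _ _ (mv_disj g h hd),
        two_step τ μ t3 _ _ _ _ _ (mv_disj h g hd.symm), t2 _ _ (comp_disj g h hd),
        flip_disj g h hd])
    (fun g h k h₁ h₂ hp hq => by
      rw [two_step τ μ t3 _ _ _ _ _ (mv_nest g h k h₁ h₂ hp hq),
        two_step τ μ t3 _ _ _ _ _ (mv_inner g h k h₁ h₂ hp hq),
        t2 _ _ (comp_nest g h k h₁ h₂ hp hq), flip_nest g h k h₁ h₂ hp hq])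

theorem actC_s (g : Gen n) :
    actC τ μ t1 t2 t3 (s g) = τ (pts g) * μ (mvAut (flip g)) := by
  unfold actC
  rw [liftC_s]

include t3 in
theorem mu_prod (π : Equiv.Perm (Fin n)) (w : List (Finset (Fin n))) :
    μ (mvAut π) * (w.map τ).prod = ((w.map (mv π)).map τ).prod * μ (mvAut π) := by
  induction w with
  | nil => simp
  | cons a w ih =>
    rw [List.map_cons, List.prod_cons, List.map_cons, List.map_cons, List.prod_cons, ← mul_assoc,
      t3, mul_assoc, ih, mul_assoc]
    rfl

theorem word_cons (g : Gen n) (L : List (Gen n)) : word (g :: L) = s g * word L := by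
  unfold word
  rw [List.map_cons, List.prod_cons]

theorem actC_word (L : List (Gen n)) :
    actC τ μ t1 t2 t3 (word L) = ((letters L).map τ).prod * μ (mvAut (rho n (word L))) := by
  induction L with
  | nil =>
    have h : word ([] : List (Gen n)) = 1 := rfl
    rw [h, map_one, map_one, map_one, map_one]
    rfl
  | cons g L ih =>
    have h : letters (g :: L) = pts g :: (letters L).map (mv (flip g)) := rfl
    rw [word_cons, map_mul, actC_s, ih, h, List.map_cons, List.prod_cons, map_mul, rho_s',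
      map_mul, map_mul]
    calc τ (pts g) * μ (mvAut (flip g)) * (((letters L).map τ).prod * μ (mvAut (rho n (word L))))
        = τ (pts g) * (μ (mvAut (flip g)) * ((letters L).map τ).prod) *
            μ (mvAut (rho n (word L))) := by simp only [mul_assoc]
      _ = τ (pts g) * ((((letters L).map (mv (flip g))).map τ).prod * μ (mvAut (flip g))) *
            μ (mvAut (rho n (word L))) := by rw [mu_prod τ μ t3]
      _ = _ := by simp only [mul_assoc]

include μ t1 t2 t3 in
theorem prod_letters (L : List (Gen n)) (hL : word L = 1) : ((letters L).map τ).prod = 1 := by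
  have h := actC_word τ μ t1 t2 t3 L
  rw [hL, map_one, map_one, map_one, map_one, mul_one] at h
  exact h.symm

end Act

theorem tr_del (hTR : GoalTR) : GoalDel := by
  intro n L hL
  obtain ⟨Q, q₀, τ, μ, t1, t2, t3, _, t5, t6⟩ := hTR (Finset (Fin n)) Comp
    (fun a b h => Comp_symm h) (fun a => Or.inl (Finset.Subset.refl a))
  have h := prod_letters τ μ t1 t2 t3 L hL
  have h' : ((letters L).map τ).prod q₀ = q₀ := by
    rw [h]
    rfl
  refine ⟨fun hne => t5 _ h' ?_, t6 _ h'⟩
  cases L with
  | nil => exact absurd rfl hne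
  | cons g L => exact List.cons_ne_nil _ _

end Pool.Agent.Helper62.CT
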